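import Pool.Agent.N282.GC.Sup
import Pool.Agent.N282.GC.Rnd

/-!
# Project EH: the diagonal Moebius-twisted Elliott–Halberstam sums, deterministic part (helper282)
-/

set_option autoImplicit false

open MeasureTheory Filter Topology Classical

namespace Pool.Agent.N282.EH

open Pool.Agent.N282.GC

/-- the sum over the multiples of `q` -/
noncomputable def TT (F : ℕ → ℝ) (N q j : ℕ) : ℝ :=
  ∑ k ∈ Finset.Icc 1 ((N - 1) / q),
    (ArithmeticFunction.vonMangoldt (N - q * k) * Real.log ((q * k : ℕ) : ℝ) ^ j) * F (q * k)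

/-- the terms of the problem -/
noncomputable def EE (g : ℕ → ℝ) (N q : ℕ) : ℝ :=
  |(∑ n ∈ (Finset.Icc 1 (N - 1)).filter (fun n => n ≡ N [MOD q]), ArithmeticFunction.vonMangoldt n * g (N - n)) -
    1 / (Nat.totient q : ℝ) * ∑ n ∈ Finset.Icc 1 (N - 1), ArithmeticFunction.vonMangoldt n * g (N - n)|

/-- the sum of the problem -/
noncomputable def DD (g : ℕ → ℝ) (N : ℕ) (θ : ℝ) : ℝ :=
  ∑ q ∈ (Finset.Icc 1 ⌊(N : ℝ) ^ θ⌋₊).filter (fun q => q.Coprime N), EE g N q

theorem Core_reindex (g : ℕ → ℝ) (N q : ℕ) (hq : 1 ≤ q) :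
    ∑ n ∈ (Finset.Icc 1 (N - 1)).filter (fun n => n ≡ N [MOD q]), ArithmeticFunction.vonMangoldt n * g (N - n) =
      ∑ k ∈ Finset.Icc 1 ((N - 1) / q), ArithmeticFunction.vonMangoldt (N - q * k) * g (q * k) := by
  refine Finset.sum_nbij' (fun n => (N - n) / q) (fun k => N - q * k) ?_ ?_ ?_ ?_ ?_
  · intro n hn
    rw [Finset.mem_filter, Finset.mem_Icc] at hn
    obtain ⟨⟨h1, h2⟩, h3⟩ := hn
    have hd : q ∣ N - n := (Nat.modEq_iff_dvd' (by omega)).1 h3
    obtain ⟨k, hk⟩ := hd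
    rw [Finset.mem_Icc]
    have e : (N - n) / q = k := by rw [hk]; exact Nat.mul_div_cancel_left k (by omega)
    rw [e]
    constructor
    · by_contra h0
      have : k = 0 := by omega
      rw [this, mul_zero] at hk
      omega
    · rw [Nat.le_div_iff_mul_le (by omega), mul_comm]
      omega
  · intro k hk
    rw [Finset.mem_Icc] at hk
    obtain ⟨h1, h2⟩ := hk
    rw [Nat.le_div_iff_mul_le (by omega), mul_comm] at h2
    have h3 : 1 ≤ q * k := Nat.mul_pos (by omega) (by omega)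
    rw [Finset.mem_filter, Finset.mem_Icc]
    refine ⟨⟨by omega, by omega⟩, ?_⟩
    rw [Nat.modEq_iff_dvd' (by omega)]
    have : N - (N - q * k) = q * k := by omega
    rw [this]
    exact Dvd.intro _ rfl
  · intro n hn
    rw [Finset.mem_filter, Finset.mem_Icc] at hn
    obtain ⟨⟨h1, h2⟩, h3⟩ := hn
    have hd : q ∣ N - n := (Nat.modEq_iff_dvd' (by omega)).1 h3
    show N - q * ((N - n) / q) = n
    rw [Nat.mul_div_cancel' hd]
    omega
  · intro k hk
    rw [Finset.mem_Icc] at hk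
    obtain ⟨h1, h2⟩ := hk
    rw [Nat.le_div_iff_mul_le (by omega), mul_comm] at h2
    show (N - (N - q * k)) / q = k
    have : N - (N - q * k) = q * k := by omega
    rw [this]
    exact Nat.mul_div_cancel_left k (by omega)
  · intro n hn
    rw [Finset.mem_filter, Finset.mem_Icc] at hn
    obtain ⟨⟨h1, h2⟩, h3⟩ := hn
    have hd : q ∣ N - n := (Nat.modEq_iff_dvd' (by omega)).1 h3
    show ArithmeticFunction.vonMangoldt n * g (N - n) =
      ArithmeticFunction.vonMangoldt (N - q * ((N - n) / q)) * g (q * ((N - n) / q))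
    rw [Nat.mul_div_cancel' hd]
    have : N - (N - n) = n := by omega
    rw [this]

theorem Core_EE (F : ℕ → ℝ) (N q j : ℕ) (hq : 1 ≤ q) :
    EE (fun m => F m * Real.log m ^ j) N q ≤ |TT F N q j| + 1 / (Nat.totient q : ℝ) * |TT F N 1 j| := by
  have e1 : ∑ n ∈ (Finset.Icc 1 (N - 1)).filter (fun n => n ≡ N [MOD q]),
      ArithmeticFunction.vonMangoldt n * (F (N - n) * Real.log ((N - n : ℕ) : ℝ) ^ j) = TT F N q j := by
    rw [Core_reindex (fun m => F m * Real.log (m : ℝ) ^ j) N q hq]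
    unfold TT
    refine Finset.sum_congr rfl fun k _ => ?_
    ring
  have e2 : ∑ n ∈ Finset.Icc 1 (N - 1),
      ArithmeticFunction.vonMangoldt n * (F (N - n) * Real.log ((N - n : ℕ) : ℝ) ^ j) = TT F N 1 j := by
    have h := Core_reindex (fun m => F m * Real.log (m : ℝ) ^ j) N 1 le_rfl
    have h2 : (Finset.Icc 1 (N - 1)).filter (fun n => n ≡ N [MOD 1]) = Finset.Icc 1 (N - 1) := by
      rw [Finset.filter_eq_self]
      intro n _
      exact Nat.modEq_one
    rw [h2] at h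
    rw [h]
    unfold TT
    refine Finset.sum_congr rfl fun k _ => ?_
    ring
  unfold EE
  rw [e1, e2]
  refine (abs_sub _ _).trans ?_
  rw [abs_mul, abs_of_nonneg (by positivity : (0 : ℝ) ≤ 1 / (Nat.totient q : ℝ))]

theorem Core_phi (q : ℕ) (hq : q ≠ 0) : q ≤ Nat.totient q * q.divisors.card := by
  have h1 := Nat.totient_mul_prod_primeFactors q
  have h2 : ∏ p ∈ q.primeFactors, p ≤ q.divisors.card * ∏ p ∈ q.primeFactors, (p - 1) := by
    rw [Nat.card_divisors hq, ← Finset.prod_mul_distrib]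
    refine Finset.prod_le_prod' fun p hp => ?_
    have hp2 := (Nat.prime_of_mem_primeFactors hp).two_le
    have hf : 1 ≤ q.factorization p :=
      (Nat.Prime.dvd_iff_one_le_factorization (Nat.prime_of_mem_primeFactors hp) hq).1
        (Nat.dvd_of_mem_primeFactors hp)
    calc p ≤ 2 * (p - 1) := by omega
      _ ≤ (q.factorization p + 1) * (p - 1) := Nat.mul_le_mul_right _ (by omega)
  have h3 : 0 < ∏ p ∈ q.primeFactors, (p - 1) := by
    refine Finset.prod_pos fun p hp => ?_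
    have hp2 := (Nat.prime_of_mem_primeFactors hp).two_le
    omega
  refine Nat.le_of_mul_le_mul_right ?_ h3
  calc q * ∏ p ∈ q.primeFactors, (p - 1) = Nat.totient q * ∏ p ∈ q.primeFactors, p := h1.symm
    _ ≤ Nat.totient q * (q.divisors.card * ∏ p ∈ q.primeFactors, (p - 1)) := Nat.mul_le_mul_left _ h2
    _ = _ := by ring

theorem Core_phi2 : ∃ C : ℝ, 0 < C ∧ ∀ q : ℕ, 1 ≤ q → 1 / (Nat.totient q : ℝ) ≤ C / Real.sqrt q := by
  obtain ⟨C, hC, h⟩ := Pool.Agent.Helper112.divisor_bound (1 / 2) (by norm_num)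
  refine ⟨C, hC, fun q hq => ?_⟩
  have hq0 : (0 : ℝ) < q := by exact_mod_cast hq
  have h1 : (q : ℝ) ≤ Nat.totient q * q.divisors.card := by exact_mod_cast Core_phi q (by omega)
  have h2 := h q hq
  have hφ : (0 : ℝ) < Nat.totient q := by exact_mod_cast Nat.totient_pos.2 (by omega)
  rw [← Real.sqrt_eq_rpow] at h2
  have hs : 0 < Real.sqrt q := Real.sqrt_pos.2 hq0
  rw [div_le_div_iff₀ hφ hs]
  have h3 : Real.sqrt q * Real.sqrt q = q := Real.mul_self_sqrt hq0.le
  have h4 : Real.sqrt q * Real.sqrt q ≤ (C * Nat.totient q) * Real.sqrt q := by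
    rw [h3]
    calc (q : ℝ) ≤ Nat.totient q * q.divisors.card := h1
      _ ≤ Nat.totient q * (C * Real.sqrt q) := mul_le_mul_of_nonneg_left h2 hφ.le
      _ = _ := by ring
  have h5 := le_of_mul_le_mul_right h4 hs
  linarith

theorem Core_sqrt (Q : ℕ) : ∑ q ∈ Finset.Icc 1 Q, 1 / Real.sqrt q ≤ 2 * Real.sqrt Q := by
  induction Q with
  | zero => simp
  | succ n ih =>
    rw [Finset.sum_Icc_succ_top (by omega)]
    have h1 : 0 < Real.sqrt ((n + 1 : ℕ) : ℝ) := Real.sqrt_pos.2 (by positivity)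
    have h2 : 1 / Real.sqrt ((n + 1 : ℕ) : ℝ) ≤ 2 * Real.sqrt ((n + 1 : ℕ) : ℝ) - 2 * Real.sqrt n := by
      rw [div_le_iff₀ h1]
      have e1 : Real.sqrt ((n + 1 : ℕ) : ℝ) * Real.sqrt ((n + 1 : ℕ) : ℝ) = n + 1 := by
        rw [Real.mul_self_sqrt (by positivity)]; push_cast; ring
      have e2 : Real.sqrt (n : ℝ) * Real.sqrt n = n := Real.mul_self_sqrt (by positivity)
      nlinarith [sq_nonneg (Real.sqrt ((n + 1 : ℕ) : ℝ) - Real.sqrt n)]
    linarith

/-- the deterministic part -/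
theorem Core_det : ∃ C1 : ℝ, 0 < C1 ∧ ∀ (F : ℕ → ℝ) (N j : ℕ) (θ ε C : ℝ), 1 ≤ N → 0 < θ → θ < 1 → 0 ≤ C →
    (∀ q ∈ Finset.Icc 1 N, |TT F N q j| ≤ C * (N : ℝ) ^ (1 / 2 + ε) / Real.sqrt q) →
      DD (fun m => F m * Real.log m ^ j) N θ ≤ C1 * C * (N : ℝ) ^ ((1 + θ) / 2 + ε) := by
  obtain ⟨C0, hC0, hφ⟩ := Core_phi2
  refine ⟨2 * (1 + C0), by positivity, ?_⟩
  intro F N j θ ε C hN hθ hθ1 hC h
  have hN1 : (1 : ℝ) ≤ N := by exact_mod_cast hN
  have hN0 : (0 : ℝ) < N := by linarith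
  set Q : ℕ := ⌊(N : ℝ) ^ θ⌋₊ with hQ
  have hQN : (Q : ℝ) ≤ (N : ℝ) ^ θ := Nat.floor_le (by positivity)
  have hQN2 : Q ≤ N := by
    have : (Q : ℝ) ≤ N := by
      calc (Q : ℝ) ≤ (N : ℝ) ^ θ := hQN
        _ ≤ (N : ℝ) ^ (1 : ℝ) := Real.rpow_le_rpow_of_exponent_le hN1 hθ1.le
        _ = N := Real.rpow_one _
    exact_mod_cast this
  set X : ℝ := C * (N : ℝ) ^ (1 / 2 + ε) with hX
  have hX0 : 0 ≤ X := by positivity
  unfold DD
  calc ∑ q ∈ (Finset.Icc 1 Q).filter (fun q => q.Coprime N), EE (fun m => F m * Real.log m ^ j) N q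
      ≤ ∑ q ∈ Finset.Icc 1 Q, EE (fun m => F m * Real.log m ^ j) N q :=
        Finset.sum_le_sum_of_subset_of_nonneg (Finset.filter_subset _ _) fun _ _ _ => abs_nonneg _
    _ ≤ ∑ q ∈ Finset.Icc 1 Q, (1 + C0) * X * (1 / Real.sqrt q) := by
        refine Finset.sum_le_sum fun q hq => ?_
        rw [Finset.mem_Icc] at hq
        have hq0 : (0 : ℝ) < q := by exact_mod_cast hq.1
        have hs : 0 < Real.sqrt q := Real.sqrt_pos.2 hq0
        have h1 := h q (Finset.mem_Icc.2 ⟨hq.1, hq.2.trans hQN2⟩)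
        have h2 := h 1 (Finset.mem_Icc.2 ⟨le_rfl, hN⟩)
        rw [Nat.cast_one, Real.sqrt_one, div_one] at h2
        have h3 := hφ q hq.1
        have h4 : 1 / (Nat.totient q : ℝ) * |TT F N 1 j| ≤ C0 / Real.sqrt q * X :=
          mul_le_mul h3 h2 (abs_nonneg _) (by positivity)
        refine (Core_EE F N q j hq.1).trans ?_
        calc |TT F N q j| + 1 / (Nat.totient q : ℝ) * |TT F N 1 j| ≤ X / Real.sqrt q + C0 / Real.sqrt q * X :=
              add_le_add h1 h4
          _ = _ := by ring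
    _ = (1 + C0) * X * ∑ q ∈ Finset.Icc 1 Q, 1 / Real.sqrt q := by rw [Finset.mul_sum]
    _ ≤ (1 + C0) * X * (2 * Real.sqrt Q) := mul_le_mul_of_nonneg_left (Core_sqrt Q) (by positivity)
    _ ≤ (1 + C0) * X * (2 * (N : ℝ) ^ (θ / 2)) := by
        refine mul_le_mul_of_nonneg_left ?_ (by positivity)
        refine mul_le_mul_of_nonneg_left ?_ (by norm_num)
        calc Real.sqrt Q ≤ Real.sqrt ((N : ℝ) ^ θ) := Real.sqrt_le_sqrt hQN
          _ = (N : ℝ) ^ (θ / 2) := by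
              rw [Real.sqrt_eq_rpow, ← Real.rpow_mul hN0.le]
              congr 1
              ring
    _ = 2 * (1 + C0) * C * ((N : ℝ) ^ (1 / 2 + ε) * (N : ℝ) ^ (θ / 2)) := by rw [hX]; ring
    _ = _ := by
        rw [← Real.rpow_add hN0]
        congr 2
        ring

end Pool.Agent.N282.EH
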