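import Pool.Agent.N282.EH.Mom

/-!
# Project EH: random signs (helper282)
-/

set_option autoImplicit false

open MeasureTheory Filter Topology Classical

namespace Pool.Agent.N282.EH

open Pool.Agent.N282.GC

theorem Fin1_log (r : ℕ) (hr : 1 ≤ r) (N : ℕ) (hN : 1 ≤ N) :
    (1 + Real.log N) ^ (4 * r) ≤ (1 + 4 * (r : ℝ)) ^ (4 * r) * N := by
  have hN1 : (1 : ℝ) ≤ N := by exact_mod_cast hN
  have hN0 : (0 : ℝ) < N := by linarith
  have hr0 : (0 : ℝ) < r := by exact_mod_cast hr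
  have h1 := Real.log_le_rpow_div hN0.le (ε := 1 / (4 * (r : ℝ))) (by positivity)
  have h2 : 1 ≤ (N : ℝ) ^ (1 / (4 * (r : ℝ))) := Real.one_le_rpow hN1 (by positivity)
  have h3 : 1 + Real.log N ≤ (1 + 4 * (r : ℝ)) * (N : ℝ) ^ (1 / (4 * (r : ℝ))) := by
    have e : (N : ℝ) ^ (1 / (4 * (r : ℝ))) / (1 / (4 * (r : ℝ))) = 4 * r * (N : ℝ) ^ (1 / (4 * (r : ℝ))) := by
      field_simp
    rw [e] at h1
    linarith
  have hl : 0 ≤ 1 + Real.log N := by
    have := Real.log_nonneg hN1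
    linarith
  calc (1 + Real.log N) ^ (4 * r) ≤ ((1 + 4 * (r : ℝ)) * (N : ℝ) ^ (1 / (4 * (r : ℝ)))) ^ (4 * r) :=
        pow_le_pow_left₀ hl h3 _
    _ = (1 + 4 * (r : ℝ)) ^ (4 * r) * N := by
        rw [mul_pow]
        congr 1
        rw [← Real.rpow_natCast ((N : ℝ) ^ (1 / (4 * (r : ℝ)))), ← Real.rpow_mul hN0.le]
        have : 1 / (4 * (r : ℝ)) * ((4 * r : ℕ) : ℝ) = 1 := by
          push_cast
          field_simp
        rw [this, Real.rpow_one]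

/-- the size of the normalised moments -/
theorem Fin1_size (ε : ℝ) (r : ℕ) (hr : 1 ≤ r) (C : ℝ) (hC : 0 < C) (N q : ℕ) (hN : 1 ≤ N) (hq : 1 ≤ q) :
    C * (1 + Real.log N) ^ (4 * r) * ((N : ℝ) / q) ^ ((r : ℝ) + 1) * (Real.sqrt q / (N : ℝ) ^ (1 / 2 + ε)) ^ (2 * r) ≤
      C * (1 + 4 * (r : ℝ)) ^ (4 * r) * (N : ℝ) ^ (2 - 2 * r * ε) := by
  have hN1 : (1 : ℝ) ≤ N := by exact_mod_cast hN
  have hN0 : (0 : ℝ) < N := by linarith
  have hq1 : (1 : ℝ) ≤ q := by exact_mod_cast hq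
  have hq0 : (0 : ℝ) < q := by linarith
  have e1 : (Real.sqrt q / (N : ℝ) ^ (1 / 2 + ε)) ^ (2 * r) = (q : ℝ) ^ (r : ℝ) / (N : ℝ) ^ ((r : ℝ) + 2 * r * ε) := by
    rw [div_pow]
    congr 1
    · rw [pow_mul, Real.sq_sqrt hq0.le, Real.rpow_natCast]
    · rw [← Real.rpow_natCast _ (2 * r), ← Real.rpow_mul hN0.le]
      congr 1
      push_cast
      ring
  have e2 : ((N : ℝ) / q) ^ ((r : ℝ) + 1) * ((q : ℝ) ^ (r : ℝ) / (N : ℝ) ^ ((r : ℝ) + 2 * r * ε)) =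
      (N : ℝ) ^ (1 - 2 * r * ε) / q := by
    rw [Real.div_rpow hN0.le hq0.le]
    have h1 : (q : ℝ) ^ ((r : ℝ) + 1) = (q : ℝ) ^ (r : ℝ) * q := by
      rw [Real.rpow_add hq0, Real.rpow_one]
    have h2 : (N : ℝ) ^ ((r : ℝ) + 1) = (N : ℝ) ^ (1 - 2 * r * ε) * (N : ℝ) ^ ((r : ℝ) + 2 * r * ε) := by
      rw [← Real.rpow_add hN0]
      congr 1
      ring
    rw [h1, h2]
    have h3 : (q : ℝ) ^ (r : ℝ) ≠ 0 := (Real.rpow_pos_of_pos hq0 _).ne'
    have h4 : (N : ℝ) ^ ((r : ℝ) + 2 * r * ε) ≠ 0 := (Real.rpow_pos_of_pos hN0 _).ne'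
    field_simp
  have h5 : (N : ℝ) ^ (1 - 2 * r * ε) / q ≤ (N : ℝ) ^ (1 - 2 * r * ε) :=
    div_le_self (Real.rpow_nonneg hN0.le _) hq1
  have h6 := Fin1_log r hr N hN
  have hl : 0 ≤ (1 + Real.log N) ^ (4 * r) := by
    have := Real.log_nonneg hN1
    positivity
  have hp : 0 ≤ (N : ℝ) ^ (1 - 2 * r * ε) := Real.rpow_nonneg hN0.le _
  calc C * (1 + Real.log N) ^ (4 * r) * ((N : ℝ) / q) ^ ((r : ℝ) + 1) *
        (Real.sqrt q / (N : ℝ) ^ (1 / 2 + ε)) ^ (2 * r)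
      = C * (1 + Real.log N) ^ (4 * r) * (((N : ℝ) / q) ^ ((r : ℝ) + 1) *
        ((q : ℝ) ^ (r : ℝ) / (N : ℝ) ^ ((r : ℝ) + 2 * r * ε))) := by rw [e1]; ring
    _ = C * (1 + Real.log N) ^ (4 * r) * ((N : ℝ) ^ (1 - 2 * r * ε) / q) := by rw [e2]
    _ ≤ C * (1 + Real.log N) ^ (4 * r) * (N : ℝ) ^ (1 - 2 * r * ε) :=
        mul_le_mul_of_nonneg_left h5 (by positivity)
    _ ≤ C * ((1 + 4 * (r : ℝ)) ^ (4 * r) * N) * (N : ℝ) ^ (1 - 2 * r * ε) := by
        refine mul_le_mul_of_nonneg_right ?_ hp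
        exact mul_le_mul_of_nonneg_left h6 hC.le
    _ = C * (1 + 4 * (r : ℝ)) ^ (4 * r) * ((N : ℝ) ^ (1 : ℝ) * (N : ℝ) ^ (1 - 2 * r * ε)) := by
        rw [Real.rpow_one]; ring
    _ = _ := by
        rw [← Real.rpow_add hN0]
        congr 2
        ring

theorem Fin1_pow (y g : ℝ) (r : ℕ) (hr : 1 ≤ r) (hy : 0 ≤ y) (hg : 0 ≤ g) (h : y ^ (2 * r) ≤ g) : y ≤ 1 + g := by
  rcases le_total y 1 with h1 | h1
  · linarith
  · have h2 : y ≤ y ^ (2 * r) := by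
      calc y = y ^ 1 := (pow_one y).symm
        _ ≤ y ^ (2 * r) := pow_le_pow_right₀ h1 (by omega)
    linarith

theorem Fin1_bound (ε : ℝ) (hε : 0 < ε) {Ω : Type} [MeasurableSpace Ω] (P : Measure Ω) [IsProbabilityMeasure P]
    (s : ℕ → Ω → ℝ) (hm : ∀ p, Measurable (s p)) (hs : ∀ p ω, s p ω = 1 ∨ s p ω = -1)
    (h0 : ∀ p, ∫ ω, s p ω ∂P = 0) (hi : ProbabilityTheory.iIndepFun s P) :
    ∀ᵐ ω ∂P, ∃ C : ℝ, 0 ≤ C ∧ ∀ N : ℕ, 1 ≤ N → ∀ q ∈ Finset.Icc 1 N, ∀ j < 2,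
      |TT (fs fun p => s p ω) N q j| ≤ C * (N : ℝ) ^ (1 / 2 + ε) / Real.sqrt q := by
  set r : ℕ := ⌈3 / ε⌉₊ + 1 with hr
  have hr1 : 1 ≤ r := by omega
  have hr2 : 6 ≤ 2 * (r : ℝ) * ε := by
    have h1 : 3 / ε ≤ (⌈3 / ε⌉₊ : ℝ) := Nat.le_ceil _
    have h2 : 3 ≤ (⌈3 / ε⌉₊ : ℝ) * ε := by rwa [div_le_iff₀ hε] at h1
    rw [hr]
    push_cast
    nlinarith
  obtain ⟨C, hC, hmom⟩ := Mom_signs r hr1
  have hmeas : ∀ N q j, Measurable fun ω => TT (fs fun p => s p ω) N q j := by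
    intro N q j
    unfold TT
    exact Finset.measurable_sum _ fun k _ => (Mom_fs_meas s hm _).const_mul _
  set X : ℕ → ℕ → ℕ → Ω → ℝ := fun N q j ω =>
    (TT (fs fun p => s p ω) N q j * (Real.sqrt q / (N : ℝ) ^ (1 / 2 + ε))) ^ (2 * r) with hX
  have hX0 : ∀ N q j ω, 0 ≤ X N q j ω := fun N q j ω => (even_two_mul r).pow_nonneg _
  have hXm : ∀ N q j, Measurable (X N q j) := fun N q j => ((hmeas N q j).mul_const _).pow_const _
  have hTTb : ∀ N q j, 1 ≤ N → 1 ≤ q → j < 2 → ∀ ω, |TT (fs fun p => s p ω) N q j| ≤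
      ∑ _k ∈ Finset.Icc 1 ((N - 1) / q), (1 + Real.log N) ^ 2 := by
    intro N q j hN hq hj ω
    rw [Mom_TT]
    refine (Finset.abs_sum_le_sum_abs _ _).trans (Finset.sum_le_sum fun k hk => ?_)
    rw [abs_mul]
    have h1 := Mom_cf N q j k hN hq hj hk
    have h2 := Mom_fs_le (fun p => s p ω) (fun p => hs p ω) (q * k)
    calc |cf N q j k| * |fs (fun p => s p ω) (q * k)| ≤ (1 + Real.log N) ^ 2 * 1 :=
          mul_le_mul h1 h2 (abs_nonneg _) (by positivity)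
      _ = _ := mul_one _
  have hXint : ∀ N q j, 1 ≤ N → 1 ≤ q → j < 2 → Integrable (X N q j) P := by
    intro N q j hN hq hj
    refine Integrable.of_bound (C := ((∑ _k ∈ Finset.Icc 1 ((N - 1) / q), (1 + Real.log N) ^ 2) *
      (Real.sqrt q / (N : ℝ) ^ (1 / 2 + ε))) ^ (2 * r)) (hXm N q j).aestronglyMeasurable ?_
    refine Eventually.of_forall fun ω => ?_
    rw [Real.norm_eq_abs, abs_of_nonneg (hX0 N q j ω)]
    simp only [hX]
    have h1 : (TT (fs fun p => s p ω) N q j * (Real.sqrt q / (N : ℝ) ^ (1 / 2 + ε))) ^ (2 * r) =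
        (|TT (fs fun p => s p ω) N q j| * (Real.sqrt q / (N : ℝ) ^ (1 / 2 + ε))) ^ (2 * r) := by
      rw [mul_pow, mul_pow, (even_two_mul r).pow_abs]
    rw [h1]
    refine pow_le_pow_left₀ (by positivity) ?_ _
    exact mul_le_mul_of_nonneg_right (hTTb N q j hN hq hj ω) (by positivity)
  have hXE : ∀ N q j, 1 ≤ N → 1 ≤ q → j < 2 → ∫ ω, X N q j ω ∂P ≤
      C * (1 + 4 * (r : ℝ)) ^ (4 * r) * (N : ℝ) ^ (2 - 2 * r * ε) := by
    intro N q j hN hq hj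
    have h1 := hmom Ω _ P inferInstance s hm hs h0 hi N q j hN hq hj
    have e : ∫ ω, X N q j ω ∂P = (∫ ω, TT (fs fun p => s p ω) N q j ^ (2 * r) ∂P) *
        (Real.sqrt q / (N : ℝ) ^ (1 / 2 + ε)) ^ (2 * r) := by
      rw [← integral_mul_const]
      simp only [hX, mul_pow]
    rw [e]
    refine (mul_le_mul_of_nonneg_right h1 (by positivity)).trans ?_
    exact Fin1_size ε r hr1 C hC N q hN hq
  set G : Ω → ENNReal := fun ω => ∑' N : ℕ, ∑ q ∈ Finset.Icc 1 N, ∑ j ∈ Finset.range 2,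
    ENNReal.ofReal (X N q j ω) with hG
  have hGm : Measurable G := by
    refine Measurable.ennreal_tsum fun N => ?_
    exact Finset.measurable_sum _ fun q _ => Finset.measurable_sum _ fun j _ => (hXm N q j).ennreal_ofReal
  have hGi : ∫⁻ ω, G ω ∂P ≠ ⊤ := by
    have e1 : ∫⁻ ω, G ω ∂P = ∑' N : ℕ, ∑ q ∈ Finset.Icc 1 N, ∑ j ∈ Finset.range 2,
        ∫⁻ ω, ENNReal.ofReal (X N q j ω) ∂P := by
      simp only [hG]
      rw [lintegral_tsum fun N => (Finset.measurable_sum _ fun q _ => Finset.measurable_sum _ fun j _ =>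
        (hXm N q j).ennreal_ofReal).aemeasurable]
      refine tsum_congr fun N => ?_
      rw [lintegral_finsetSum _ fun q _ => Finset.measurable_sum _ fun j _ => (hXm N q j).ennreal_ofReal]
      refine Finset.sum_congr rfl fun q _ => ?_
      rw [lintegral_finsetSum _ fun j _ => (hXm N q j).ennreal_ofReal]
    set K : ℝ := C * (1 + 4 * (r : ℝ)) ^ (4 * r) with hK
    have hK0 : 0 < K := by positivity
    have h2 : ∀ N : ℕ, ∑ q ∈ Finset.Icc 1 N, ∑ j ∈ Finset.range 2, ∫⁻ ω, ENNReal.ofReal (X N q j ω) ∂P ≤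
        ENNReal.ofReal (2 * K * (1 / (N : ℝ) ^ 2)) := by
      intro N
      rcases Nat.eq_zero_or_pos N with h | hN
      · rw [h]; simp
      have hN1 : (1 : ℝ) ≤ N := by exact_mod_cast hN
      have hN0 : (0 : ℝ) < N := by linarith
      have h3 : ∀ q ∈ Finset.Icc 1 N, ∀ j ∈ Finset.range 2, ∫⁻ ω, ENNReal.ofReal (X N q j ω) ∂P ≤
          ENNReal.ofReal (K * (N : ℝ) ^ (2 - 2 * r * ε)) := by
        intro q hq j hj
        rw [← ofReal_integral_eq_lintegral_ofReal (hXint N q j hN (Finset.mem_Icc.1 hq).1 (Finset.mem_range.1 hj))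
          (Eventually.of_forall (hX0 N q j))]
        exact ENNReal.ofReal_le_ofReal (hXE N q j hN (Finset.mem_Icc.1 hq).1 (Finset.mem_range.1 hj))
      calc ∑ q ∈ Finset.Icc 1 N, ∑ j ∈ Finset.range 2, ∫⁻ ω, ENNReal.ofReal (X N q j ω) ∂P
          ≤ ∑ _q ∈ Finset.Icc 1 N, ∑ _j ∈ Finset.range 2, ENNReal.ofReal (K * (N : ℝ) ^ (2 - 2 * r * ε)) :=
            Finset.sum_le_sum fun q hq => Finset.sum_le_sum fun j hj => h3 q hq j hj
        _ = ENNReal.ofReal (2 * K * ((N : ℝ) * (N : ℝ) ^ (2 - 2 * r * ε))) := by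
            rw [Finset.sum_const, Finset.sum_const, Finset.card_range, Nat.card_Icc, Nat.add_sub_cancel,
              nsmul_eq_mul, nsmul_eq_mul]
            rw [show 2 * K * ((N : ℝ) * (N : ℝ) ^ (2 - 2 * r * ε)) = (N : ℝ) * (2 * (K * (N : ℝ) ^ (2 - 2 * r * ε))) by
              ring]
            rw [ENNReal.ofReal_mul hN0.le, ENNReal.ofReal_mul (show (0 : ℝ) ≤ 2 by norm_num), ENNReal.ofReal_natCast,
              ENNReal.ofReal_ofNat]
            norm_num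
        _ ≤ ENNReal.ofReal (2 * K * (1 / (N : ℝ) ^ 2)) := by
            refine ENNReal.ofReal_le_ofReal ?_
            refine mul_le_mul_of_nonneg_left ?_ (by positivity)
            have e2 : (N : ℝ) * (N : ℝ) ^ (2 - 2 * r * ε) = (N : ℝ) ^ (3 - 2 * r * ε) := by
              nth_rewrite 1 [← Real.rpow_one (N : ℝ)]
              rw [← Real.rpow_add hN0]
              congr 1
              ring
            rw [e2, one_div, ← Real.rpow_natCast (N : ℝ) 2, ← Real.rpow_neg hN0.le]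
            refine Real.rpow_le_rpow_of_exponent_le hN1 ?_
            push_cast
            linarith
    rw [e1]
    refine ne_top_of_le_ne_top ?_ (ENNReal.tsum_le_tsum h2)
    have hsum : Summable fun N : ℕ => 2 * K * (1 / (N : ℝ) ^ 2) :=
      (Real.summable_one_div_nat_pow.2 (by norm_num)).mul_left _
    rw [← ENNReal.ofReal_tsum_of_nonneg (fun N => by positivity) hsum]
    exact ENNReal.ofReal_ne_top
  filter_upwards [ae_lt_top hGm hGi] with ω hω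
  refine ⟨1 + (G ω).toReal, by positivity, ?_⟩
  intro N hN q hq j hj
  have hN0 : (0 : ℝ) < N := by exact_mod_cast hN
  have hq0 : (0 : ℝ) < q := by exact_mod_cast (Finset.mem_Icc.1 hq).1
  have hsq : 0 < Real.sqrt q := Real.sqrt_pos.2 hq0
  have hNp : 0 < (N : ℝ) ^ (1 / 2 + ε) := Real.rpow_pos_of_pos hN0 _
  have h1 : ENNReal.ofReal (X N q j ω) ≤ G ω := by
    calc ENNReal.ofReal (X N q j ω) ≤ ∑ j ∈ Finset.range 2, ENNReal.ofReal (X N q j ω) :=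
          Finset.single_le_sum (f := fun j => ENNReal.ofReal (X N q j ω)) (fun _ _ => zero_le)
            (Finset.mem_range.2 hj)
      _ ≤ ∑ q ∈ Finset.Icc 1 N, ∑ j ∈ Finset.range 2, ENNReal.ofReal (X N q j ω) :=
          Finset.single_le_sum (f := fun q => ∑ j ∈ Finset.range 2, ENNReal.ofReal (X N q j ω))
            (fun _ _ => zero_le) hq
      _ ≤ G ω := ENNReal.le_tsum (f := fun N : ℕ => ∑ q ∈ Finset.Icc 1 N, ∑ j ∈ Finset.range 2,
            ENNReal.ofReal (X N q j ω)) N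
  have h2 : X N q j ω ≤ (G ω).toReal := by
    rwa [ENNReal.ofReal_le_iff_le_toReal hω.ne] at h1
  have h3 : (|TT (fs fun p => s p ω) N q j| * (Real.sqrt q / (N : ℝ) ^ (1 / 2 + ε))) ^ (2 * r) ≤ (G ω).toReal := by
    refine le_trans (le_of_eq ?_) h2
    simp only [hX]
    rw [mul_pow, mul_pow, (even_two_mul r).pow_abs]
  have h4 := Fin1_pow _ _ r hr1 (by positivity) ENNReal.toReal_nonneg h3
  rw [le_div_iff₀ hsq]
  rw [mul_div_assoc', div_le_iff₀ hNp] at h4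
  exact h4

/-- the result for random signs -/
theorem Fin1_main {Ω : Type} [MeasurableSpace Ω] (P : Measure Ω) [IsProbabilityMeasure P]
    (s : ℕ → Ω → ℝ) (hm : ∀ p, Measurable (s p)) (hs : ∀ p ω, s p ω = 1 ∨ s p ω = -1)
    (h0 : ∀ p, ∫ ω, s p ω ∂P = 0) (hi : ProbabilityTheory.iIndepFun s P) :
    ∀ᵐ ω ∂P, ∀ θ ε : ℝ, 0 < θ → θ < 1 → 0 < ε → ∃ C : ℝ, ∀ N : ℕ, 1 ≤ N → ∀ j < 2,
      DD (fun m => fs (fun p => s p ω) m * Real.log m ^ j) N θ ≤ C * (N : ℝ) ^ ((1 + θ) / 2 + ε) := by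
  obtain ⟨C1, hC1, hdet⟩ := Core_det
  have h := fun n : ℕ => Fin1_bound (1 / ((n : ℝ) + 1)) (by positivity) P s hm hs h0 hi
  rw [← ae_all_iff] at h
  filter_upwards [h] with ω hω
  intro θ ε hθ hθ1 hε
  obtain ⟨n, hn⟩ := exists_nat_one_div_lt hε
  obtain ⟨C, hC, hCb⟩ := hω n
  refine ⟨C1 * C, fun N hN j hj => ?_⟩
  have hN1 : (1 : ℝ) ≤ N := by exact_mod_cast hN
  refine hdet (fs fun p => s p ω) N j θ ε C hN hθ hθ1 hC fun q hq => ?_
  refine (hCb N hN q hq j hj).trans ?_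
  refine div_le_div_of_nonneg_right ?_ (Real.sqrt_nonneg _)
  refine mul_le_mul_of_nonneg_left ?_ hC
  exact Real.rpow_le_rpow_of_exponent_le hN1 (by linarith)

end Pool.Agent.N282.EH
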