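import Pool.Agent.N282.EH.Fin1
import Pool.Agent.N282.GC.Jac

/-!
# Project EH: almost all real characters (helper282)
-/

set_option autoImplicit false

open MeasureTheory Filter Topology Classical

namespace Pool.Agent.N282.EH

open Pool.Agent.N282.GC

/-- the bad `d` for one choice of `N`, `q`, `j` -/
noncomputable def Bd (D N q j : ℕ) (ε : ℝ) : Finset ℕ :=
  (Finset.Icc 1 D).filter fun d => Odd d ∧ (N : ℝ) ^ (1 / 2 + ε) / Real.sqrt q < |TT (fj d) N q j|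

theorem Fin2_one (ε A : ℝ) (hε : 0 < ε) (hA : 0 < A) : ∃ (r : ℕ) (C : ℝ), 1 ≤ r ∧ 0 < C ∧
    ∀ D N q j : ℕ, 1 ≤ N → 1 ≤ q → q ≤ N → j < 2 → (N : ℝ) ^ (4 * r) ≤ D →
      ((Bd D N q j ε).card : ℝ) ≤ C * D * (N : ℝ) ^ (-(A + 4)) := by
  set r : ℕ := ⌈(A + 6) / (2 * ε)⌉₊ + 1 with hr
  have hr1 : 1 ≤ r := by omega
  have hr2 : A + 6 ≤ 2 * (r : ℝ) * ε := by
    have h1 : (A + 6) / (2 * ε) ≤ (⌈(A + 6) / (2 * ε)⌉₊ : ℝ) := Nat.le_ceil _
    have h2 : A + 6 ≤ (⌈(A + 6) / (2 * ε)⌉₊ : ℝ) * (2 * ε) := by rwa [div_le_iff₀ (by positivity)] at h1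
    rw [hr]
    push_cast
    nlinarith
  obtain ⟨C, hC, hmom⟩ := Mom_chars t_JAC r hr1
  set K : ℝ := (1 + 4 * (r : ℝ)) ^ (4 * r) with hK
  have hK0 : 0 < K := by positivity
  refine ⟨r, (C + 4) * K, hr1, by positivity, ?_⟩
  intro D N q j hN hq hqN hj hND
  have hN1 : (1 : ℝ) ≤ N := by exact_mod_cast hN
  have hN0 : (0 : ℝ) < N := by linarith
  have hq1 : (1 : ℝ) ≤ q := by exact_mod_cast hq
  have hq0 : (0 : ℝ) < q := by linarith
  have hqN' : (q : ℝ) ≤ N := by exact_mod_cast hqN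
  have hsq : 0 < Real.sqrt q := Real.sqrt_pos.2 hq0
  have hNp : 0 < (N : ℝ) ^ (1 / 2 + ε) := Real.rpow_pos_of_pos hN0 _
  have hD0 : (0 : ℝ) ≤ D := Nat.cast_nonneg _
  set T : ℝ := (N : ℝ) ^ (1 / 2 + ε) / Real.sqrt q with hT
  have hT0 : 0 < T := by positivity
  have h1 : ((Bd D N q j ε).card : ℝ) * T ^ (2 * r) ≤
      ∑ d ∈ (Finset.Icc 1 D).filter (fun d => Odd d), TT (fj d) N q j ^ (2 * r) := by
    have hsub : Bd D N q j ε ⊆ (Finset.Icc 1 D).filter (fun d => Odd d) := by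
      intro d hd
      unfold Bd at hd
      rw [Finset.mem_filter] at hd
      rw [Finset.mem_filter]
      exact ⟨hd.1, hd.2.1⟩
    calc ((Bd D N q j ε).card : ℝ) * T ^ (2 * r) = ∑ _d ∈ Bd D N q j ε, T ^ (2 * r) := by
          rw [Finset.sum_const, nsmul_eq_mul]
      _ ≤ ∑ d ∈ Bd D N q j ε, TT (fj d) N q j ^ (2 * r) := by
          refine Finset.sum_le_sum fun d hd => ?_
          unfold Bd at hd
          rw [Finset.mem_filter] at hd
          calc T ^ (2 * r) ≤ |TT (fj d) N q j| ^ (2 * r) := pow_le_pow_left₀ hT0.le hd.2.2.le _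
            _ = _ := (even_two_mul r).pow_abs _
      _ ≤ _ := Finset.sum_le_sum_of_subset_of_nonneg hsub fun d _ _ => (even_two_mul r).pow_nonneg _
  have h2 := h1.trans (hmom D N q j hN hq hj hqN)
  have hinv : (Real.sqrt q / (N : ℝ) ^ (1 / 2 + ε)) ^ (2 * r) * T ^ (2 * r) = 1 := by
    rw [← mul_pow, hT]
    have : Real.sqrt q / (N : ℝ) ^ (1 / 2 + ε) * ((N : ℝ) ^ (1 / 2 + ε) / Real.sqrt q) = 1 := by
      field_simp
    rw [this, one_pow]
  set W : ℝ := (Real.sqrt q / (N : ℝ) ^ (1 / 2 + ε)) ^ (2 * r) with hW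
  have hW0 : 0 ≤ W := by positivity
  have h3 : ((Bd D N q j ε).card : ℝ) ≤
      (1 + Real.log N) ^ (4 * r) * (C * ((N : ℝ) / q) ^ ((r : ℝ) + 1) * D + 4 * (N : ℝ) ^ (4 * r)) * W := by
    calc ((Bd D N q j ε).card : ℝ) = ((Bd D N q j ε).card : ℝ) * T ^ (2 * r) * W := by
          rw [mul_assoc, mul_comm (T ^ (2 * r)) W, hinv, mul_one]
      _ ≤ _ := mul_le_mul_of_nonneg_right h2 hW0
  refine h3.trans ?_
  have h4 : C * (1 + Real.log N) ^ (4 * r) * ((N : ℝ) / q) ^ ((r : ℝ) + 1) * W ≤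
      C * K * (N : ℝ) ^ (2 - 2 * r * ε) := Fin1_size ε r hr1 C hC N q hN hq
  have h5 : (1 + Real.log N) ^ (4 * r) * W ≤ K * (N : ℝ) ^ (2 - 2 * r * ε) := by
    have h6 := Fin1_log r hr1 N hN
    have e1 : W = (q : ℝ) ^ (r : ℝ) / (N : ℝ) ^ ((r : ℝ) + 2 * r * ε) := by
      rw [hW, div_pow]
      congr 1
      · rw [pow_mul, Real.sq_sqrt hq0.le, Real.rpow_natCast]
      · rw [← Real.rpow_natCast _ (2 * r), ← Real.rpow_mul hN0.le]
        congr 1
        push_cast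
        ring
    have h7 : W ≤ (N : ℝ) ^ (-(2 * r * ε)) := by
      rw [e1]
      have h8 : (q : ℝ) ^ (r : ℝ) ≤ (N : ℝ) ^ (r : ℝ) := Real.rpow_le_rpow hq0.le hqN' (Nat.cast_nonneg _)
      calc (q : ℝ) ^ (r : ℝ) / (N : ℝ) ^ ((r : ℝ) + 2 * r * ε) ≤
            (N : ℝ) ^ (r : ℝ) / (N : ℝ) ^ ((r : ℝ) + 2 * r * ε) :=
            div_le_div_of_nonneg_right h8 (Real.rpow_nonneg hN0.le _)
        _ = _ := by
            rw [← Real.rpow_sub hN0]
            congr 1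
            ring
    calc (1 + Real.log N) ^ (4 * r) * W ≤ (K * N) * (N : ℝ) ^ (-(2 * r * ε)) :=
          mul_le_mul h6 h7 hW0 (by positivity)
      _ = K * ((N : ℝ) ^ (1 : ℝ) * (N : ℝ) ^ (-(2 * r * ε))) := by rw [Real.rpow_one]; ring
      _ = K * (N : ℝ) ^ (1 - 2 * r * ε) := by
          rw [← Real.rpow_add hN0]
          congr 2
      _ ≤ K * (N : ℝ) ^ (2 - 2 * r * ε) := by
          refine mul_le_mul_of_nonneg_left ?_ hK0.le
          exact Real.rpow_le_rpow_of_exponent_le hN1 (by linarith)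
  have h9 : (N : ℝ) ^ (2 - 2 * r * ε) ≤ (N : ℝ) ^ (-(A + 4)) :=
    Real.rpow_le_rpow_of_exponent_le hN1 (by linarith)
  have h10 : (1 + Real.log N) ^ (4 * r) * (4 * (N : ℝ) ^ (4 * r)) * W ≤ 4 * D * (K * (N : ℝ) ^ (2 - 2 * r * ε)) := by
    have h11 : 0 ≤ (1 + Real.log N) ^ (4 * r) * W := by
      have := Real.log_nonneg hN1
      positivity
    calc (1 + Real.log N) ^ (4 * r) * (4 * (N : ℝ) ^ (4 * r)) * W =
          (4 * (N : ℝ) ^ (4 * r)) * ((1 + Real.log N) ^ (4 * r) * W) := by ring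
      _ ≤ (4 * D) * (K * (N : ℝ) ^ (2 - 2 * r * ε)) :=
          mul_le_mul (mul_le_mul_of_nonneg_left hND (by norm_num)) h5 h11 (by positivity)
  calc (1 + Real.log N) ^ (4 * r) * (C * ((N : ℝ) / q) ^ ((r : ℝ) + 1) * D + 4 * (N : ℝ) ^ (4 * r)) * W
      = C * (1 + Real.log N) ^ (4 * r) * ((N : ℝ) / q) ^ ((r : ℝ) + 1) * W * D +
        (1 + Real.log N) ^ (4 * r) * (4 * (N : ℝ) ^ (4 * r)) * W := by ring
    _ ≤ C * K * (N : ℝ) ^ (2 - 2 * r * ε) * D + 4 * D * (K * (N : ℝ) ^ (2 - 2 * r * ε)) :=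
        add_le_add (mul_le_mul_of_nonneg_right h4 hD0) h10
    _ = (C + 4) * K * D * (N : ℝ) ^ (2 - 2 * r * ε) := by ring
    _ ≤ (C + 4) * K * D * (N : ℝ) ^ (-(A + 4)) := mul_le_mul_of_nonneg_left h9 (by positivity)

theorem Fin2_main (ε A : ℝ) (hε : 0 < ε) (hA : 0 < A) : ∃ c C : ℝ, 0 < c ∧ 0 < C ∧ ∀ D R0 : ℕ, 1 ≤ R0 →
    (((Finset.Icc 1 D).filter fun d => Odd d ∧ ¬ ∀ N : ℕ, R0 ≤ N → (N : ℝ) ≤ (D : ℝ) ^ c → ∀ θ : ℝ, 0 < θ → θ < 1 →
      ∀ j < 2, DD (fun m => fj d m * Real.log m ^ j) N θ ≤ (N : ℝ) ^ ((1 + θ) / 2 + ε)).card : ℝ) ≤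
        C * D * (R0 : ℝ) ^ (-A) := by
  obtain ⟨C1, hC1, hdet⟩ := Core_det
  obtain ⟨r, C, hr, hC, hone⟩ := Fin2_one (ε / 2) A (by positivity) hA
  have hr0 : (0 : ℝ) < r := by exact_mod_cast hr
  set c : ℝ := 1 / (4 * r) with hc
  have hc0 : 0 < c := by positivity
  set N0 : ℝ := max 1 C1 ^ (2 / ε) with hN0
  have hN01 : 1 ≤ N0 := Real.one_le_rpow (le_max_left _ _) (by positivity)
  refine ⟨c, 4 * C + N0 ^ A, hc0, by positivity, ?_⟩
  intro D R0 hR0
  have hR00 : (0 : ℝ) < R0 := by exact_mod_cast hR0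
  have hR01 : (1 : ℝ) ≤ R0 := by exact_mod_cast hR0
  have hD0 : (0 : ℝ) ≤ D := Nat.cast_nonneg D
  set Z := (Finset.Icc 1 D).filter fun d => Odd d ∧ ¬ ∀ N : ℕ, R0 ≤ N → (N : ℝ) ≤ (D : ℝ) ^ c → ∀ θ : ℝ,
    0 < θ → θ < 1 → ∀ j < 2, DD (fun m => fj d m * Real.log m ^ j) N θ ≤ (N : ℝ) ^ ((1 + θ) / 2 + ε) with hZ
  have hRA : 0 < (R0 : ℝ) ^ (-A) := Real.rpow_pos_of_pos hR00 _
  rcases lt_or_ge (R0 : ℝ) N0 with hlt | hge
  · have h1 : (Z.card : ℝ) ≤ D := by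
      have := Finset.card_filter_le (Finset.Icc 1 D) (fun d => Odd d ∧ ¬ ∀ N : ℕ, R0 ≤ N → (N : ℝ) ≤ (D : ℝ) ^ c →
        ∀ θ : ℝ, 0 < θ → θ < 1 → ∀ j < 2,
          DD (fun m => fj d m * Real.log m ^ j) N θ ≤ (N : ℝ) ^ ((1 + θ) / 2 + ε))
      rw [Nat.card_Icc, Nat.add_sub_cancel] at this
      exact_mod_cast this
    have h2 : 1 ≤ N0 ^ A * (R0 : ℝ) ^ (-A) := by
      rw [Real.rpow_neg hR00.le, ← div_eq_mul_inv, one_le_div (Real.rpow_pos_of_pos hR00 _)]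
      exact Real.rpow_le_rpow hR00.le hlt.le hA.le
    calc (Z.card : ℝ) ≤ D * 1 := by rw [mul_one]; exact h1
      _ ≤ D * (N0 ^ A * (R0 : ℝ) ^ (-A)) := mul_le_mul_of_nonneg_left h2 hD0
      _ ≤ D * ((4 * C + N0 ^ A) * (R0 : ℝ) ^ (-A)) := by
          refine mul_le_mul_of_nonneg_left ?_ hD0
          refine mul_le_mul_of_nonneg_right ?_ hRA.le
          linarith
      _ = _ := by ring
  · set M : ℕ := ⌊(D : ℝ) ^ c⌋₊ with hM
    have hsub : Z ⊆ (Finset.Icc R0 M).biUnion fun N => (Finset.Icc 1 N).biUnion fun q =>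
        (Finset.range 2).biUnion fun j => Bd D N q j (ε / 2) := by
      intro d hd
      rw [hZ, Finset.mem_filter] at hd
      obtain ⟨hd1, hd2, hd3⟩ := hd
      by_contra hcon
      refine hd3 ?_
      intro N hN1 hN2 θ hθ hθ1 j hj
      have hN1' : (1 : ℕ) ≤ N := hR0.trans hN1
      have hNr : (1 : ℝ) ≤ N := by exact_mod_cast hN1'
      have hNr0 : (0 : ℝ) < N := by linarith
      have h1 : DD (fun m => fj d m * Real.log m ^ j) N θ ≤ C1 * 1 * (N : ℝ) ^ ((1 + θ) / 2 + ε / 2) := by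
        refine hdet (fj d) N j θ (ε / 2) 1 hN1' hθ hθ1 zero_le_one fun q hq => ?_
        rw [one_mul]
        by_contra hq2
        refine hcon ?_
        simp only [Finset.mem_biUnion]
        refine ⟨N, Finset.mem_Icc.2 ⟨hN1, Nat.le_floor hN2⟩, q, hq, j, Finset.mem_range.2 hj, ?_⟩
        unfold Bd
        rw [Finset.mem_filter]
        exact ⟨hd1, hd2, lt_of_not_ge hq2⟩
      refine h1.trans ?_
      have h2 : C1 ≤ (N : ℝ) ^ (ε / 2) := by
        have h3 : N0 ≤ N := hge.trans (by exact_mod_cast hN1)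
        have h4 : C1 ≤ max 1 C1 := le_max_right _ _
        have h5 : max 1 C1 = N0 ^ (ε / 2) := by
          rw [hN0, ← Real.rpow_mul (by positivity)]
          have : 2 / ε * (ε / 2) = 1 := by field_simp
          rw [this, Real.rpow_one]
        calc C1 ≤ N0 ^ (ε / 2) := h5 ▸ h4
          _ ≤ _ := Real.rpow_le_rpow (by linarith) h3 (by positivity)
      calc C1 * 1 * (N : ℝ) ^ ((1 + θ) / 2 + ε / 2) ≤ (N : ℝ) ^ (ε / 2) * (N : ℝ) ^ ((1 + θ) / 2 + ε / 2) := by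
            rw [mul_one]
            exact mul_le_mul_of_nonneg_right h2 (Real.rpow_nonneg hNr0.le _)
        _ = _ := by
            rw [← Real.rpow_add hNr0]
            congr 1
            ring
    have hNone : ∀ N ∈ Finset.Icc R0 M, (((Finset.Icc 1 N).biUnion fun q =>
        (Finset.range 2).biUnion fun j => Bd D N q j (ε / 2)).card : ℝ) ≤
          2 * C * D * (R0 : ℝ) ^ (-A) * (1 / (N : ℝ) ^ 2) := by
      intro N hN
      rw [Finset.mem_Icc] at hN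
      have hN1 : 1 ≤ N := hR0.trans hN.1
      have hNr : (1 : ℝ) ≤ N := by exact_mod_cast hN1
      have hNr0 : (0 : ℝ) < N := by linarith
      have hND : (N : ℝ) ^ (4 * r) ≤ D := by
        have h1 : (N : ℝ) ≤ (D : ℝ) ^ c := by
          have h2 : (N : ℝ) ≤ M := by exact_mod_cast hN.2
          exact h2.trans (Nat.floor_le (by positivity))
        calc (N : ℝ) ^ (4 * r) ≤ ((D : ℝ) ^ c) ^ (4 * r) := pow_le_pow_left₀ hNr0.le h1 _
          _ = D := by
              rw [← Real.rpow_natCast ((D : ℝ) ^ c), ← Real.rpow_mul hD0, hc]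
              have : 1 / (4 * (r : ℝ)) * ((4 * r : ℕ) : ℝ) = 1 := by
                push_cast
                field_simp
              rw [this, Real.rpow_one]
      calc (((Finset.Icc 1 N).biUnion fun q => (Finset.range 2).biUnion fun j => Bd D N q j (ε / 2)).card : ℝ)
          ≤ ∑ q ∈ Finset.Icc 1 N, (((Finset.range 2).biUnion fun j => Bd D N q j (ε / 2)).card : ℝ) := by
            exact_mod_cast Finset.card_biUnion_le
        _ ≤ ∑ q ∈ Finset.Icc 1 N, ∑ j ∈ Finset.range 2, ((Bd D N q j (ε / 2)).card : ℝ) := by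
            refine Finset.sum_le_sum fun q _ => ?_
            exact_mod_cast Finset.card_biUnion_le
        _ ≤ ∑ _q ∈ Finset.Icc 1 N, ∑ _j ∈ Finset.range 2, C * D * (N : ℝ) ^ (-(A + 4)) :=
            Finset.sum_le_sum fun q hq => Finset.sum_le_sum fun j hj =>
              hone D N q j hN1 (Finset.mem_Icc.1 hq).1 (Finset.mem_Icc.1 hq).2 (Finset.mem_range.1 hj) hND
        _ = 2 * C * D * (N * (N : ℝ) ^ (-(A + 4))) := by
            rw [Finset.sum_const, Finset.sum_const, Finset.card_range, Nat.card_Icc, Nat.add_sub_cancel,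
              nsmul_eq_mul, nsmul_eq_mul]
            push_cast
            ring
        _ ≤ 2 * C * D * ((R0 : ℝ) ^ (-A) * (1 / (N : ℝ) ^ 2)) := by
            refine mul_le_mul_of_nonneg_left ?_ (by positivity)
            have e1 : (N : ℝ) * (N : ℝ) ^ (-(A + 4)) = (N : ℝ) ^ (-A) * (N : ℝ) ^ (-3 : ℝ) := by
              nth_rewrite 1 [← Real.rpow_one (N : ℝ)]
              rw [← Real.rpow_add hNr0, ← Real.rpow_add hNr0]
              congr 1
              ring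
            rw [e1]
            have h1 : (N : ℝ) ^ (-A) ≤ (R0 : ℝ) ^ (-A) :=
              Real.rpow_le_rpow_of_nonpos hR00 (by exact_mod_cast hN.1) (by linarith)
            have h2 : (N : ℝ) ^ (-3 : ℝ) ≤ 1 / (N : ℝ) ^ 2 := by
              rw [one_div, ← Real.rpow_natCast (N : ℝ) 2, ← Real.rpow_neg hNr0.le]
              refine Real.rpow_le_rpow_of_exponent_le hNr ?_
              push_cast
              norm_num
            exact mul_le_mul h1 h2 (Real.rpow_nonneg hNr0.le _) hRA.le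
        _ = _ := by ring
    calc (Z.card : ℝ) ≤ (((Finset.Icc R0 M).biUnion fun N => (Finset.Icc 1 N).biUnion fun q =>
          (Finset.range 2).biUnion fun j => Bd D N q j (ε / 2)).card : ℝ) := by
          exact_mod_cast Finset.card_le_card hsub
      _ ≤ ∑ N ∈ Finset.Icc R0 M, (((Finset.Icc 1 N).biUnion fun q =>
          (Finset.range 2).biUnion fun j => Bd D N q j (ε / 2)).card : ℝ) := by
          exact_mod_cast Finset.card_biUnion_le
      _ ≤ ∑ N ∈ Finset.Icc R0 M, 2 * C * D * (R0 : ℝ) ^ (-A) * (1 / (N : ℝ) ^ 2) := Finset.sum_le_sum hNone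
      _ = 2 * C * D * (R0 : ℝ) ^ (-A) * ∑ N ∈ Finset.Icc R0 M, 1 / (N : ℝ) ^ 2 := by rw [Finset.mul_sum]
      _ ≤ 2 * C * D * (R0 : ℝ) ^ (-A) * 2 :=
          mul_le_mul_of_nonneg_left (SUP_tail R0 M hR0) (by positivity)
      _ = 4 * C * D * (R0 : ℝ) ^ (-A) := by ring
      _ ≤ (4 * C + N0 ^ A) * D * (R0 : ℝ) ^ (-A) := by
          refine mul_le_mul_of_nonneg_right ?_ hRA.le
          refine mul_le_mul_of_nonneg_right ?_ hD0
          have : 0 < N0 ^ A := by positivity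
          linarith

end Pool.Agent.N282.EH
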