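import Pool.Agent.N282.EH.Core

/-!
# Project EH: moments (helper282)
-/

set_option autoImplicit false

open MeasureTheory Filter Topology Classical

namespace Pool.Agent.N282.EH

open Pool.Agent.N282.GC

theorem Mom_exp (c F : ℕ → ℝ) (R K : ℕ) : (∑ k ∈ Finset.Icc 1 R, c k * F k) ^ K =
    ∑ n ∈ tup K (Finset.Icc 1 R), (∏ i, c (n i)) * ∏ i, F (n i) := by
  have h : (∑ k ∈ Finset.Icc 1 R, c k * F k) ^ K = ∏ _i : Fin K, ∑ k ∈ Finset.Icc 1 R, c k * F k := by
    rw [Finset.prod_const, Finset.card_univ, Fintype.card_fin]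
  rw [h, Finset.prod_univ_sum]
  unfold tup
  refine Finset.sum_congr rfl fun n _ => ?_
  rw [Finset.prod_mul_distrib]

theorem Mom_bound (K R : ℕ) (B M E : ℝ) (c : ℕ → ℝ) (L : (Fin K → ℕ) → ℝ) (hB : 0 ≤ B) (hM : 0 ≤ M) (hE : 0 ≤ E)
    (hc : ∀ k ∈ Finset.Icc 1 R, |c k| ≤ B)
    (hL : ∀ n ∈ tup K (Finset.Icc 1 R), |L n| ≤ if IsSquare (∏ i, n i) then M else E) :
    ∑ n ∈ tup K (Finset.Icc 1 R), (∏ i, c (n i)) * L n ≤
      B ^ K * ((((tup K (Finset.Icc 1 R)).filter fun n => IsSquare (∏ i, n i)).card : ℝ) * M + (R : ℝ) ^ K * E) := by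
  calc ∑ n ∈ tup K (Finset.Icc 1 R), (∏ i, c (n i)) * L n
      ≤ ∑ n ∈ tup K (Finset.Icc 1 R), B ^ K * ((if IsSquare (∏ i, n i) then M else 0) + E) := by
        refine Finset.sum_le_sum fun n hn => ?_
        have h1 : |∏ i, c (n i)| ≤ B ^ K := by
          rw [Finset.abs_prod]
          calc ∏ i, |c (n i)| ≤ ∏ _i : Fin K, B := Finset.prod_le_prod (fun _ _ => abs_nonneg _)
                fun i _ => hc _ ((Fintype.mem_piFinset.1 hn) i)
            _ = B ^ K := by simp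
        have h2 : |L n| ≤ (if IsSquare (∏ i, n i) then M else 0) + E := by
          refine (hL n hn).trans ?_
          split_ifs <;> linarith
        calc (∏ i, c (n i)) * L n ≤ |(∏ i, c (n i)) * L n| := le_abs_self _
          _ = |∏ i, c (n i)| * |L n| := abs_mul _ _
          _ ≤ _ := mul_le_mul h1 h2 (abs_nonneg _) (by positivity)
    _ = _ := by
        rw [← Finset.mul_sum, Finset.sum_add_distrib, ← Finset.sum_filter, Finset.sum_const, Finset.sum_const,
          nsmul_eq_mul, nsmul_eq_mul]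
        have h6 : (tup K (Finset.Icc 1 R)).card = R ^ K := by
          unfold tup
          rw [Fintype.card_piFinset]
          simp
        rw [h6]
        push_cast
        rfl

theorem Mom_sq (q r : ℕ) (hq : 1 ≤ q) (n : Fin (2 * r) → ℕ) (h : IsSquare (∏ i, (q * n i))) :
    IsSquare (∏ i, n i) := by
  rw [Finset.prod_mul_distrib] at h
  have e : ∏ _i : Fin (2 * r), q = (q ^ r) ^ 2 := by
    simp [pow_mul, mul_comm]
  rw [e] at h
  obtain ⟨z, hz⟩ := h
  rw [← sq] at hz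
  have hd : q ^ r ∣ z := by
    have : (q ^ r) ^ 2 ∣ z ^ 2 := ⟨_, hz.symm⟩
    exact (Nat.pow_dvd_pow_iff two_ne_zero).1 this
  obtain ⟨w, rfl⟩ := hd
  refine ⟨w, ?_⟩
  have hq0 : 0 < (q ^ r) ^ 2 := by positivity
  refine Nat.eq_of_mul_eq_mul_left hq0 ?_
  rw [hz]
  ring

/-- the coefficients -/
noncomputable def cf (N q j k : ℕ) : ℝ :=
  ArithmeticFunction.vonMangoldt (N - q * k) * Real.log ((q * k : ℕ) : ℝ) ^ j

theorem Mom_TT (F : ℕ → ℝ) (N q j : ℕ) :
    TT F N q j = ∑ k ∈ Finset.Icc 1 ((N - 1) / q), cf N q j k * F (q * k) := rfl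

theorem Mom_cf (N q j k : ℕ) (hN : 1 ≤ N) (hq : 1 ≤ q) (hj : j < 2) (hk : k ∈ Finset.Icc 1 ((N - 1) / q)) :
    |cf N q j k| ≤ (1 + Real.log N) ^ 2 := by
  rw [Finset.mem_Icc] at hk
  obtain ⟨h1, h2⟩ := hk
  rw [Nat.le_div_iff_mul_le (by omega), mul_comm] at h2
  have h3 : 1 ≤ q * k := Nat.mul_pos (by omega) (by omega)
  have hN1 : (1 : ℝ) ≤ N := by exact_mod_cast hN
  have hlN : 0 ≤ Real.log N := Real.log_nonneg hN1
  have hΛ : |ArithmeticFunction.vonMangoldt (N - q * k)| ≤ 1 + Real.log N := by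
    rw [abs_of_nonneg ArithmeticFunction.vonMangoldt_nonneg]
    have h4 : ArithmeticFunction.vonMangoldt (N - q * k) ≤ Real.log ((N - q * k : ℕ) : ℝ) :=
      ArithmeticFunction.vonMangoldt_le_log
    have h5 : Real.log ((N - q * k : ℕ) : ℝ) ≤ Real.log N := by
      refine Real.log_le_log ?_ ?_
      · have : 1 ≤ N - q * k := by omega
        exact_mod_cast this
      · exact_mod_cast Nat.sub_le _ _
    linarith
  have hl : |Real.log ((q * k : ℕ) : ℝ) ^ j| ≤ 1 + Real.log N := by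
    have h4 : 0 ≤ Real.log ((q * k : ℕ) : ℝ) := Real.log_nonneg (by exact_mod_cast h3)
    have h5 : Real.log ((q * k : ℕ) : ℝ) ≤ Real.log N := by
      refine Real.log_le_log (by exact_mod_cast h3) ?_
      have : q * k ≤ N := by omega
      exact_mod_cast this
    rw [abs_of_nonneg (by positivity)]
    interval_cases j
    · rw [pow_zero]; linarith
    · rw [pow_one]; linarith
  unfold cf
  rw [abs_mul, sq]
  exact mul_le_mul hΛ hl (abs_nonneg _) (by linarith)

/-- the number of tuples, with the constant of `t_TC` for `κ = 1` -/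
theorem Mom_count (r : ℕ) (hr : 1 ≤ r) : ∃ C : ℝ, 0 < C ∧ ∀ (N q : ℕ), 1 ≤ q →
    (((tup (2 * r) (Finset.Icc 1 ((N - 1) / q))).filter fun n => IsSquare (∏ i, n i)).card : ℝ) ≤
      C * ((N : ℝ) / q) ^ ((r : ℝ) + 1) := by
  obtain ⟨C, hC, h⟩ := t_TC r 1 hr one_pos
  refine ⟨C, hC, fun N q hq => ?_⟩
  have hq0 : (0 : ℝ) < q := by exact_mod_cast hq
  rcases Nat.eq_zero_or_pos ((N - 1) / q) with h0 | h0
  · rw [h0]
    have : tup (2 * r) (Finset.Icc 1 0) = ∅ := by
      unfold tup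
      rw [← Finset.card_eq_zero, Fintype.card_piFinset]
      rw [Finset.prod_eq_zero_iff]
      exact ⟨⟨0, by omega⟩, Finset.mem_univ _, by simp⟩
    rw [this]
    simp
    positivity
  · refine (h _ h0).trans ?_
    refine mul_le_mul_of_nonneg_left ?_ hC.le
    refine Real.rpow_le_rpow (Nat.cast_nonneg _) ?_ (by positivity)
    calc (((N - 1) / q : ℕ) : ℝ) ≤ ((N - 1 : ℕ) : ℝ) / q := Nat.cast_div_le
      _ ≤ (N : ℝ) / q := by
          refine div_le_div_of_nonneg_right ?_ hq0.le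
          exact_mod_cast Nat.sub_le _ _

/-! ## random signs -/

theorem Mom_fs_le (s : ℕ → ℝ) (hs : ∀ p, s p = 1 ∨ s p = -1) (n : ℕ) : |fs s n| ≤ 1 := by
  unfold fs
  rw [abs_mul, Finset.abs_prod]
  have h1 : ∀ p ∈ n.primeFactors, |s p| = 1 := by
    intro p _
    rcases hs p with h | h <;> rw [h] <;> simp
  rw [Finset.prod_congr rfl h1, Finset.prod_const_one, mul_one]
  have h2 := ArithmeticFunction.abs_moebius_le_one (n := n)
  exact_mod_cast h2

theorem Mom_fs_nsq (s : ℕ → ℝ) (n : ℕ) (h : ¬ Squarefree n) : fs s n = 0 := by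
  unfold fs
  rw [ArithmeticFunction.moebius_eq_zero_of_not_squarefree h]
  simp

theorem Mom_fs_one (s : ℕ → ℝ) : fs s 1 = 1 := by
  unfold fs
  simp

theorem Mom_fs_meas {Ω : Type} [MeasurableSpace Ω] (s : ℕ → Ω → ℝ) (hm : ∀ p, Measurable (s p)) (n : ℕ) :
    Measurable fun ω => fs (fun p => s p ω) n := by
  unfold fs
  exact (Finset.measurable_prod _ fun p _ => hm p).const_mul _

theorem Mom_rnd {Ω : Type} [MeasurableSpace Ω] (P : Measure Ω) [IsProbabilityMeasure P] (s : ℕ → Ω → ℝ)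
    (hm : ∀ p, Measurable (s p)) (hs : ∀ p ω, s p ω = 1 ∨ s p ω = -1) (h0 : ∀ p, ∫ ω, s p ω ∂P = 0)
    (hi : ProbabilityTheory.iIndepFun s P) (K : ℕ) (n : Fin K → ℕ) (hn : ¬ IsSquare (∏ i, n i)) :
    ∫ ω, ∏ i, fs (fun p => s p ω) (n i) ∂P = 0 := by
  by_cases hsq : ∀ i, Squarefree (n i)
  · have h := t_RND Ω _ P inferInstance s hm hs h0 hi K n (fun _ => 1) hsq (fun _ => squarefree_one) (by
      simpa using hn)
    simpa [Mom_fs_one] using h
  · push Not at hsq
    obtain ⟨i, hi2⟩ := hsq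
    have : ∀ ω, ∏ i, fs (fun p => s p ω) (n i) = 0 := fun ω =>
      Finset.prod_eq_zero (Finset.mem_univ i) (Mom_fs_nsq _ _ hi2)
    simp [this]

/-- the moments for random signs -/
theorem Mom_signs (r : ℕ) (hr : 1 ≤ r) : ∃ C : ℝ, 0 < C ∧ ∀ (Ω : Type) (_ : MeasurableSpace Ω) (P : Measure Ω)
    (_ : IsProbabilityMeasure P) (s : ℕ → Ω → ℝ), (∀ p, Measurable (s p)) → (∀ p ω, s p ω = 1 ∨ s p ω = -1) →
    (∀ p, ∫ ω, s p ω ∂P = 0) → ProbabilityTheory.iIndepFun s P → ∀ N q j : ℕ, 1 ≤ N → 1 ≤ q → j < 2 →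
      ∫ ω, TT (fs fun p => s p ω) N q j ^ (2 * r) ∂P ≤
        C * (1 + Real.log N) ^ (4 * r) * ((N : ℝ) / q) ^ ((r : ℝ) + 1) := by
  obtain ⟨C, hC, hcount⟩ := Mom_count r hr
  refine ⟨C, hC, ?_⟩
  intro Ω _ P _ s hm hs h0 hi N q j hN hq hj
  set R := (N - 1) / q with hR
  have e1 : ∀ ω, TT (fs fun p => s p ω) N q j ^ (2 * r) =
      ∑ n ∈ tup (2 * r) (Finset.Icc 1 R), (∏ i, cf N q j (n i)) * ∏ i, fs (fun p => s p ω) (q * n i) := by
    intro ω
    rw [Mom_TT]
    exact Mom_exp (cf N q j) (fun k => fs (fun p => s p ω) (q * k)) R (2 * r)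
  have hint : ∀ n : Fin (2 * r) → ℕ, Integrable (fun ω => ∏ i, fs (fun p => s p ω) (q * n i)) P := by
    intro n
    refine Integrable.of_bound (C := 1) ?_ ?_
    · exact (Finset.measurable_prod _ fun i _ => Mom_fs_meas s hm _).aestronglyMeasurable
    · refine Eventually.of_forall fun ω => ?_
      rw [Real.norm_eq_abs, Finset.abs_prod]
      exact Finset.prod_le_one (fun _ _ => abs_nonneg _) fun i _ => Mom_fs_le _ (fun p => hs p ω) _
  have e2 : ∫ ω, TT (fs fun p => s p ω) N q j ^ (2 * r) ∂P =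
      ∑ n ∈ tup (2 * r) (Finset.Icc 1 R), (∏ i, cf N q j (n i)) * ∫ ω, ∏ i, fs (fun p => s p ω) (q * n i) ∂P := by
    simp only [e1]
    rw [integral_finsetSum _ fun n _ => (hint n).const_mul _]
    refine Finset.sum_congr rfl fun n _ => ?_
    rw [integral_const_mul]
  rw [e2]
  have hN1 : (1 : ℝ) ≤ N := by exact_mod_cast hN
  have hB : 0 ≤ (1 + Real.log N) ^ 2 := by positivity
  refine (Mom_bound (2 * r) R ((1 + Real.log N) ^ 2) 1 0 (cf N q j) _ hB zero_le_one le_rfl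
    (fun k hk => Mom_cf N q j k hN hq hj hk) ?_).trans ?_
  · intro n hn
    split_ifs with hsq
    · refine (abs_integral_le_integral_abs).trans ?_
      have h1 : ∀ ω, |∏ i, fs (fun p => s p ω) (q * n i)| ≤ 1 := by
        intro ω
        rw [Finset.abs_prod]
        exact Finset.prod_le_one (fun _ _ => abs_nonneg _) fun i _ => Mom_fs_le _ (fun p => hs p ω) _
      calc ∫ ω, |∏ i, fs (fun p => s p ω) (q * n i)| ∂P ≤ ∫ _ω, (1 : ℝ) ∂P :=
            integral_mono (hint n).abs (integrable_const _) h1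
        _ = 1 := by simp
    · have : ¬ IsSquare (∏ i, q * n i) := fun h => hsq (Mom_sq q r hq n h)
      rw [Mom_rnd P s hm hs h0 hi (2 * r) (fun i => q * n i) this, abs_zero]
  · rw [mul_one, mul_zero, add_zero, ← pow_mul]
    have h4 : 2 * (2 * r) = 4 * r := by ring
    rw [h4]
    have hlog : 0 ≤ 1 + Real.log N := by
      have := Real.log_nonneg hN1
      linarith
    calc (1 + Real.log N) ^ (4 * r) *
        (((tup (2 * r) (Finset.Icc 1 R)).filter fun n => IsSquare (∏ i, n i)).card : ℝ)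
        ≤ (1 + Real.log N) ^ (4 * r) * (C * ((N : ℝ) / q) ^ ((r : ℝ) + 1)) :=
          mul_le_mul_of_nonneg_left (hcount N q hq) (by positivity)
      _ = _ := by ring

/-! ## real characters -/

theorem Mom_chars (hJ : S_JAC) (r : ℕ) (hr : 1 ≤ r) : ∃ C : ℝ, 0 < C ∧ ∀ D N q j : ℕ, 1 ≤ N → 1 ≤ q → j < 2 →
    q ≤ N →
      ∑ d ∈ (Finset.Icc 1 D).filter (fun d => Odd d), TT (fj d) N q j ^ (2 * r) ≤
        (1 + Real.log N) ^ (4 * r) * (C * ((N : ℝ) / q) ^ ((r : ℝ) + 1) * D + 4 * (N : ℝ) ^ (4 * r)) := by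
  obtain ⟨C, hC, hcount⟩ := Mom_count r hr
  refine ⟨C, hC, ?_⟩
  intro D N q j hN hq hj hqN
  set R := (N - 1) / q with hR
  have e1 : ∀ d, TT (fj d) N q j ^ (2 * r) =
      ∑ n ∈ tup (2 * r) (Finset.Icc 1 R), (∏ i, cf N q j (n i)) * ∏ i, fj d (q * n i) := by
    intro d
    rw [Mom_TT]
    exact Mom_exp (cf N q j) (fun k => fj d (q * k)) R (2 * r)
  simp only [e1]
  rw [Finset.sum_comm]
  simp only [← Finset.mul_sum]
  have hN1 : (1 : ℝ) ≤ N := by exact_mod_cast hN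
  have hB : 0 ≤ (1 + Real.log N) ^ 2 := by positivity
  refine (Mom_bound (2 * r) R ((1 + Real.log N) ^ 2) D (4 * (N : ℝ) ^ (2 * r)) (cf N q j) _ hB
    (Nat.cast_nonneg _) (by positivity) (fun k hk => Mom_cf N q j k hN hq hj hk) ?_).trans ?_
  · intro n hn
    have hb : ∀ i, 1 ≤ q * n i ∧ q * n i ≤ N := by
      intro i
      have h1 := Finset.mem_Icc.1 ((Fintype.mem_piFinset.1 hn) i)
      obtain ⟨h2, h3⟩ := h1
      rw [hR, Nat.le_div_iff_mul_le (by omega), mul_comm] at h3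
      exact ⟨Nat.mul_pos (by omega) (by omega), by omega⟩
    have h1 := SUP_sum_fj hJ (2 * r) D N (fun i => q * n i) hb
    refine h1.trans ?_
    split_ifs with h2 h3 h3
    · exact le_rfl
    · exact absurd (Mom_sq q r hq n h2) h3
    · have h4 : IsSquare (∏ i, q * n i) := by
        rw [Finset.prod_mul_distrib]
        refine IsSquare.mul ?_ h3
        have e : ∏ _i : Fin (2 * r), q = q ^ (2 * r) := by simp
        rw [e]
        exact ⟨q ^ r, by rw [← pow_add]; congr 1; omega⟩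
      exact absurd h4 h2
    · exact le_rfl
  · rw [← pow_mul]
    have h4 : 2 * (2 * r) = 4 * r := by ring
    rw [h4]
    have hlog : 0 ≤ 1 + Real.log N := by
      have := Real.log_nonneg hN1
      linarith
    refine mul_le_mul_of_nonneg_left ?_ (by positivity)
    have hRN : (R : ℝ) ≤ N := by
      have : R ≤ N := (Nat.div_le_self _ _).trans (Nat.sub_le _ _)
      exact_mod_cast this
    have h5 : (R : ℝ) ^ (2 * r) * (4 * (N : ℝ) ^ (2 * r)) ≤ 4 * (N : ℝ) ^ (4 * r) := by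
      have h6 : (R : ℝ) ^ (2 * r) ≤ (N : ℝ) ^ (2 * r) := pow_le_pow_left₀ (Nat.cast_nonneg _) hRN _
      have h7 : (N : ℝ) ^ (4 * r) = (N : ℝ) ^ (2 * r) * (N : ℝ) ^ (2 * r) := by
        rw [← pow_add]; congr 1; omega
      rw [h7]
      have h8 : (0 : ℝ) ≤ (N : ℝ) ^ (2 * r) := by positivity
      nlinarith [mul_le_mul_of_nonneg_right h6 h8]
    exact add_le_add (mul_le_mul_of_nonneg_right (hcount N q hq) (Nat.cast_nonneg _)) h5

end Pool.Agent.N282.EH
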